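import Mathlib
import Pool.Agent.Y495.NA1
import Pool.Agent.Y495.NA2

/-!
# MP_6169a9_an: the norm version of the noncommutative AM-GM inequality is false

Counterexample with `m = n = 5`.  Let `cos δ = 12/13`, `sin δ = 5/13` and
`v k = (cos kδ, sin kδ)` for `k = 0, …, 4`.  The sixty blocks `b` are the arrangements of five
letters up to reversal; in block `b`, the matrix `A j` is the rank-one projection onto
`v (pos b j)`, where `pos b j` is the position of `j` in the arrangement.  For every ordering of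
the five matrices some block has the product of norm `cos δ ^ 4`; the average over all `5 ^ 5`
words of the maximum over the blocks is smaller.
-/

set_option autoImplicit false

namespace Pool.Agent.Results.MP_6169a9_an.NormAMGMFails

open scoped Matrix.Norms.L2Operator ComplexOrder
open Matrix Pool.Agent.Y495.NA

/-- The average, over all `m`-tuples of indices, of the spectral norm of the product. -/
noncomputable def W {𝕜 : Type} [RCLike 𝕜] {d n : ℕ} (A : Fin n → Matrix (Fin d) (Fin d) 𝕜)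
    (m : ℕ) : ℝ :=
  (1 / (n : ℝ) ^ m) * ∑ j : Fin m → Fin n, ‖(List.ofFn fun i => A (j i)).prod‖

/-- The average, over all `m`-tuples of distinct indices, of the spectral norm of the product. -/
noncomputable def D {𝕜 : Type} [RCLike 𝕜] {d n : ℕ} (A : Fin n → Matrix (Fin d) (Fin d) 𝕜)
    (m : ℕ) : ℝ :=
  (((n - m).factorial : ℝ) / (n.factorial : ℝ)) *
    ∑ j : Fin m ↪ Fin n, ‖(List.ofFn fun i => A (j i)).prod‖

/-- the unit vectors `(cos kδ, sin kδ)` -/
noncomputable def v (k : ℕ) : Fin 2 → ℝ := match k with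
  | 0 => ![1, 0]
  | 1 => ![12 / 13, 5 / 13]
  | 2 => ![119 / 169, 120 / 169]
  | 3 => ![828 / 2197, 2035 / 2197]
  | _ => ![-239 / 28561, 28560 / 28561]

lemma v_norm (k : ℕ) : ∑ i, v k i ^ 2 = 1 := by
  rw [Fin.sum_univ_two]
  unfold v
  split <;> norm_num

lemma v_inner (k l : ℕ) (hk : k < 5) (hl : l < 5) :
    |∑ i, v k i * v l i| = (CT (ds k l) : ℝ) / 28561 := by
  rw [Fin.sum_univ_two]
  interval_cases k <;> interval_cases l <;> norm_num [v, CT, ds, abs_div, abs_of_pos, abs_of_neg]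

/-- the sixty blocks of size two -/
def e : Fin 120 ≃ Fin 60 × Fin 2 := (finProdFinEquiv (m := 60) (n := 2)).symm

/-- the five matrices -/
noncomputable def A (𝕜 : Type) [RCLike 𝕜] (j : Fin 5) : Matrix (Fin 120) (Fin 120) 𝕜 :=
  R 𝕜 e (fun b => v (pos b j)) (fun b => v (pos b j))

lemma pos_lt (b : Fin 60) (j : Fin 5) : pos b j < 5 := by
  have h := al_spec _ _ (al_spec _ _ pos_check b b.2) j j.2
  exact Nat.ble_eq.mp h

lemma Dt_eq (b : Fin 60) (i j : Fin 5) : Dt b i j = CT (ds (pos b i) (pos b j)) := by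
  have h := al_spec _ _ (al_spec _ _ (al_spec _ _ Dt_check b b.2) i i.2) j j.2
  exact beq_iff_eq.mp h

/-- inner products in block `b` -/
noncomputable def G (b : Fin 60) (i j : Fin 5) : ℝ := ∑ t, v (pos b i) t * v (pos b j) t

lemma G_abs (b : Fin 60) (i j : Fin 5) : |G b i j| = (Dt b i j : ℝ) / 28561 := by
  unfold G
  rw [v_inner _ _ (pos_lt b i) (pos_lt b j), Dt_eq]

lemma prod_eq (𝕜 : Type) [RCLike 𝕜] (a b c d f : Fin 5) :
    A 𝕜 a * (A 𝕜 b * (A 𝕜 c * (A 𝕜 d * A 𝕜 f))) =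
      R 𝕜 e (fun t i => (G t a b * (G t b c * (G t c d * G t d f))) * v (pos t a) i)
        (fun t => v (pos t f)) := by
  have h0 : A 𝕜 f = R 𝕜 e (fun t i => (fun _ : Fin 60 => (1 : ℝ)) t * v (pos t f) i)
      (fun t => v (pos t f)) := by
    unfold A
    congr 1
    funext t i
    simp
  rw [h0]
  simp only [A]
  rw [R_mul_scaled 𝕜 e (fun t => v (pos t d)) (fun t => v (pos t f)),
    R_mul_scaled 𝕜 e (fun t => v (pos t c)) (fun t => v (pos t d)),
    R_mul_scaled 𝕜 e (fun t => v (pos t b)) (fun t => v (pos t c)),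
    R_mul_scaled 𝕜 e (fun t => v (pos t a)) (fun t => v (pos t b))]
  congr 1
  funext t i
  simp only [G, mul_one]

/-- the norm of a product of five of the matrices -/
lemma norm_prod_eq (𝕜 : Type) [RCLike 𝕜] (a b c d f : Fin 5) :
    ‖A 𝕜 a * (A 𝕜 b * (A 𝕜 c * (A 𝕜 d * A 𝕜 f)))‖ = (M a b c d f : ℝ) / 28561 ^ 4 := by
  rw [prod_eq]
  have habs : ∀ t : Fin 60, |G t a b * (G t b c * (G t c d * G t d f))| =
      ((Dt t a b * Dt t b c * Dt t c d * Dt t d f : ℕ) : ℝ) / 28561 ^ 4 := by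
    intro t
    rw [abs_mul, abs_mul, abs_mul, G_abs, G_abs, G_abs, G_abs]
    push_cast
    ring
  apply le_antisymm
  · refine norm_scaled_le 𝕜 e _ _ _ (fun _ => v_norm _) (fun _ => v_norm _) _ (by positivity) ?_
    intro t
    rw [habs t]
    have h : Dt t a b * Dt t b c * Dt t c d * Dt t d f ≤ M a b c d f :=
      le_mx (fun t => Dt t a b * Dt t b c * Dt t c d * Dt t d f) 60 t t.2
    have h' : ((Dt t a b * Dt t b c * Dt t c d * Dt t d f : ℕ) : ℝ) ≤ (M a b c d f : ℕ) := by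
      exact_mod_cast h
    gcongr
  · obtain ⟨t, ht, ht'⟩ :=
      mx_attained (fun t => Dt t a b * Dt t b c * Dt t c d * Dt t d f) 60 (by norm_num)
    have h := le_norm_scaled 𝕜 e (fun t => v (pos t a)) (fun t => v (pos t f))
      (fun t => G t a b * (G t b c * (G t c d * G t d f)))
      (fun _ => v_norm _) (fun _ => v_norm _) ⟨t, ht⟩
    rw [habs ⟨t, ht⟩] at h
    have hM : M a b c d f = Dt t a b * Dt t b c * Dt t c d * Dt t d f := ht'
    rw [hM]
    exact h

lemma ofFn_prod (𝕜 : Type) [RCLike 𝕜] (j : Fin 5 → Fin 5) :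
    (List.ofFn fun i => A 𝕜 (j i)).prod =
      A 𝕜 (j 0) * (A 𝕜 (j 1) * (A 𝕜 (j 2) * (A 𝕜 (j 3) * A 𝕜 (j 4)))) := by
  simp only [List.ofFn_succ, List.ofFn_zero, List.prod_cons, List.prod_nil, mul_one]
  rfl

lemma norm_word (𝕜 : Type) [RCLike 𝕜] (j : Fin 5 → Fin 5) :
    ‖(List.ofFn fun i => A 𝕜 (j i)).prod‖ =
      (M (j 0) (j 1) (j 2) (j 3) (j 4) : ℝ) / 28561 ^ 4 := by
  rw [ofFn_prod, norm_prod_eq]

lemma sum_cons {α : Type} [Fintype α] {n : ℕ} (F : (Fin (n + 1) → α) → ℕ) :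
    ∑ f, F f = ∑ a : α, ∑ g : Fin n → α, F (Fin.cons a g) := by
  rw [← (Fin.consEquiv (fun _ : Fin (n + 1) => α)).sum_comp, Fintype.sum_prod_type]
  rfl

lemma sum_words : ∑ j : Fin 5 → Fin 5, M (j 0) (j 1) (j 2) (j 3) (j 4) < 3125 * 26364 ^ 4 := by
  have h := sum_check
  simp only [sm_eq] at h
  refine lt_of_eq_of_lt ?_ h
  rw [sum_cons]
  refine Finset.sum_congr rfl fun a _ => ?_
  rw [sum_cons]
  refine Finset.sum_congr rfl fun b _ => ?_
  rw [sum_cons]
  refine Finset.sum_congr rfl fun c _ => ?_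
  rw [sum_cons]
  refine Finset.sum_congr rfl fun d _ => ?_
  rw [sum_cons]
  refine Finset.sum_congr rfl fun f _ => ?_
  rw [Fintype.sum_unique]
  rfl

lemma inj_le (j : Fin 5 → Fin 5) (hj : Function.Injective j) :
    26364 ^ 4 ≤ M (j 0) (j 1) (j 2) (j 3) (j 4) := by
  have h := al_spec _ _ (al_spec _ _ (al_spec _ _ (al_spec _ _ (al_spec _ _ inj_check
    (j 0) (j 0).2) (j 1) (j 1).2) (j 2) (j 2).2) (j 3) (j 3).2) (j 4) (j 4).2
  have hne : ∀ a b : Fin 5, a ≠ b → ((j a : ℕ) == (j b : ℕ)) = false := by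
    intro a b hab
    rw [beq_eq_false_iff_ne]
    intro h'
    exact hab (hj (Fin.ext h'))
  rw [hne 0 1 (by decide), hne 0 2 (by decide), hne 0 3 (by decide), hne 0 4 (by decide),
    hne 1 2 (by decide), hne 1 3 (by decide), hne 1 4 (by decide), hne 2 3 (by decide),
    hne 2 4 (by decide), hne 3 4 (by decide)] at h
  simp only [Bool.false_or] at h
  exact Nat.ble_eq.mp h

/-- **The norm version of the noncommutative AM-GM inequality fails** (over `ℝ` and over `ℂ`):
there are five positive semidefinite matrices for which the average of the norms of the products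
of length five over all words is smaller than the average over the words without repetition. -/
theorem result (𝕜 : Type) [RCLike 𝕜] :
    ∃ (d m n : ℕ), 1 ≤ d ∧ 1 ≤ m ∧ m ≤ n ∧ ∃ A : Fin n → Matrix (Fin d) (Fin d) 𝕜,
      (∀ i, (A i).PosSemidef) ∧ W A m < D A m := by
  refine ⟨120, 5, 5, by norm_num, by norm_num, le_rfl, A 𝕜, fun i => R_posSemidef 𝕜 e _, ?_⟩
  unfold W D
  have h1 : ∑ j : Fin 5 → Fin 5, ‖(List.ofFn fun i => A 𝕜 (j i)).prod‖ <
      3125 * 26364 ^ 4 / 28561 ^ 4 := by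
    rw [Finset.sum_congr rfl fun j _ => norm_word 𝕜 j, ← Finset.sum_div]
    have h := sum_words
    have h' : (∑ j : Fin 5 → Fin 5, (M (j 0) (j 1) (j 2) (j 3) (j 4) : ℝ)) <
        3125 * 26364 ^ 4 := by
      exact_mod_cast h
    gcongr
  have h2 : 120 * (26364 ^ 4 / 28561 ^ 4) ≤
      ∑ j : Fin 5 ↪ Fin 5, ‖(List.ofFn fun i => A 𝕜 (j i)).prod‖ := by
    have hcard : (Finset.univ : Finset (Fin 5 ↪ Fin 5)).card = 120 := by
      rw [Finset.card_univ, Fintype.card_embedding_eq]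
      rfl
    have h3 : ∀ j ∈ (Finset.univ : Finset (Fin 5 ↪ Fin 5)),
        (26364 ^ 4 / 28561 ^ 4 : ℝ) ≤ ‖(List.ofFn fun i => A 𝕜 (j i)).prod‖ := by
      intro j _
      rw [norm_word 𝕜 (fun i => j i)]
      have h := inj_le (fun i => j i) j.injective
      have h' : (26364 ^ 4 : ℝ) ≤ (M (j 0) (j 1) (j 2) (j 3) (j 4) : ℝ) := by
        exact_mod_cast h
      gcongr
    have h4 := Finset.card_nsmul_le_sum _ _ _ h3
    rw [hcard, nsmul_eq_mul] at h4
    exact_mod_cast h4
  have e1 : ((5 - 5).factorial : ℝ) / ((5 : ℕ).factorial : ℝ) = 1 / 120 := by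
    norm_num [Nat.factorial]
  rw [e1]
  push_cast
  norm_num at h1 h2 ⊢
  linarith

end Pool.Agent.Results.MP_6169a9_an.NormAMGMFails
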